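import Pool.Agent.H25.RB

set_option autoImplicit false

namespace Pool.Agent.Results.MP_ad21dd_lc.NPHard
open Pool.Agent.H11.PT Pool.Agent.H25.CB

/-- vertex names -/
abbrev V := ℕ × ℕ × ℕ

/-- the edges of the undirected graph with edge list `E` that have exactly one end in `X`, each
written once as (end in `X`, end outside `X`) -/
def cutEdges (E : List (V × V)) (X : Set V) : Set (V × V) :=
  {e | e.1 ∈ X ∧ e.2 ∉ X ∧ (e ∈ E ∨ e.swap ∈ E)}

/-- the instance is (red edges, blue edges, s, t, r, b) -/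
def RedBlue (y : List (V × V) × List (V × V) × V × V × ℕ × ℕ) : Prop :=
  (y.2.2.1 ≠ y.2.2.2.1 ∧ (∀ e ∈ y.1 ++ y.2.1, e.1 ≠ e.2) ∧ ∀ e ∈ y.1, e ∉ y.2.1 ∧ e.swap ∉ y.2.1) ∧
  ∃ X : Set V, y.2.2.1 ∈ X ∧ y.2.2.2.1 ∉ X ∧
    (cutEdges y.1 X).ncard ≤ y.2.2.2.2.1 ∧ (cutEdges y.2.1 X).ncard ≤ y.2.2.2.2.2

theorem fin (E : List (V × V)) (X : Set V) : (cutEdges E X).Finite :=
  (E ++ E.map Prod.swap).finite_toSet.subset fun e h => by
    rcases h.2.2 with h | h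
    · exact List.mem_append_left _ h
    · exact List.mem_append_right _ (List.mem_map.2 ⟨_, h, rfl⟩)

theorem result : NPHard RedBlue := by
  refine (hard_IS.red (fun y => (red0 y, blue y, (0, 0, 0), (3, 0, 0), y.2.2,
    y.1 * y.1 - y.2.2 * y.2.2)) (by fun_prop) fun y hv => ?_).npHard
  refine ⟨⟨by simp, ?_, ?_⟩, fun h => ?_, ?_⟩
  · intro e he
    rcases List.mem_append.1 he with h | h
    · obtain ⟨u, -, rfl⟩ := mem_red0.1 h
      simp
    · obtain ⟨u, -, v, -, rfl | rfl | rfl⟩ := mem_blue.1 h <;> cases g : good y u v <;> simp [tg, g]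
  · intro e he
    obtain ⟨u, -, rfl⟩ := mem_red0.1 he
    simp [mem_blue]
  · obtain ⟨X, h1, h2, h3⟩ := complete y hv h
    exact ⟨X, h1 0, h2 0, h3⟩
  · rintro ⟨X, h1, h2, h3, h4⟩
    exact sound y hv X h1 h2 _ _ (fin _ X) (fin _ X) (fun e a b c => ⟨b, c, .inl a⟩)
      (fun e a b c => ⟨b, c, .inl a⟩) h3 h4

end Pool.Agent.Results.MP_ad21dd_lc.NPHard
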